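import Mathlib

namespace Pool.Agent.H.MP_295da9_pr

open Set Function

def par (n : ℕ) : ℕ := if n % 8 = 7 then 8 * par (n / 8) + 1 else 8 * (n / 8) + 7
termination_by n
decreasing_by omega

def ch (n : ℕ) : ℕ := if n % 8 = 7 then ch (n / 8) else n % 8
termination_by n
decreasing_by omega

lemma p7 {n : ℕ} (h : n % 8 = 7) : par n = 8 * par (n / 8) + 1 ∧ ch n = ch (n / 8) :=
  ⟨by rw [par, if_pos h], by rw [ch, if_pos h]⟩

lemma p0 {n : ℕ} (h : n % 8 ≠ 7) : par n = 8 * (n / 8) + 7 ∧ ch n = n % 8 :=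
  ⟨by rw [par, if_neg h], by rw [ch, if_neg h]⟩

lemma lt_par (n : ℕ) : n < par n ∧ ch n < 7 := by
  induction n using Nat.strong_induction_on with
  | _ n ih =>
    by_cases h : n % 8 = 7
    · have := ih (n / 8) (by omega)
      have := p7 h
      omega
    · have := p0 h
      omega

lemma pinj (m : ℕ) : ∀ n, par m = par n → ch m = ch n → m = n := by
  induction m using Nat.strong_induction_on with
  | _ m ih =>
    intro n h1 h2
    by_cases h : m % 8 = 7 <;> by_cases h' : n % 8 = 7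
    · have := p7 h
      have := p7 h'
      have := ih (m / 8) (by omega) (n / 8) (by omega) (by omega)
      omega
    · have := p7 h
      have := p0 h'
      omega
    · have := p0 h
      have := p7 h'
      omega
    · have := p0 h
      have := p0 h'
      omega

lemma par2 (n : ℕ) : par (par n) / 8 = par (n / 8) := by
  by_cases h : n % 8 = 7
  · have := p7 h
    have := p0 (n := par n) (by omega)
    omega
  · have h1 := p0 h
    have h2 := p7 (n := par n) (by omega)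
    rw [show par n / 8 = n / 8 by omega] at h2
    omega

lemma it2 (j n : ℕ) : par^[2 * j] n / 8 = par^[j] (n / 8) := by
  induction j with
  | zero => rfl
  | succ j ih => rw [Nat.mul_succ, iterate_succ_apply', iterate_succ_apply', par2, ih, iterate_succ_apply']

lemma it1 {i r : ℕ} (h : i ≤ 2 * r) (n : ℕ) : ∃ j ≤ r, par^[i] n / 8 = par^[j] (n / 8) := by
  obtain ⟨j, rfl | rfl⟩ := i.even_or_odd'
  · exact ⟨j, by omega, it2 j n⟩
  · rw [iterate_succ_apply']
    have h1 := it2 j n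
    by_cases h : par^[2 * j] n % 8 = 7
    · exact ⟨j + 1, by omega, by rw [iterate_succ_apply', ← h1, (p7 h).1]; omega⟩
    · exact ⟨j, by omega, by rw [← h1, (p0 h).1]; omega⟩

def Nr (f : ℕ → ℕ) (r a b : ℕ) : Prop := ∃ i ≤ r, ∃ j ≤ r, f^[i] a = f^[j] b

lemma fib (S : Set ℕ) {N : ℕ} (h : 0 < N) : {b | b / N ∈ S}.encard ≤ S.encard * N := by
  have := encard_le_encard_of_injOn (s := {b | b / N ∈ S}) (t := S ×ˢ (Finset.range N : Set ℕ))
    (f := fun b => (b / N, b % N)) (fun b hb => ⟨hb, by simpa using Nat.mod_lt b h⟩) fun a _ b _ hab => by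
      simp only [Prod.mk.injEq] at hab
      rw [← Nat.div_add_mod a N, ← Nat.div_add_mod b N, hab.1, hab.2]
  rwa [encard_prod, encard_coe_eq_coe_finsetCard, Finset.card_range] at this

lemma up1 (k : ℕ) : ∀ a, {b | Nr par (2 ^ k) a b}.encard ≤ (16 * 8 ^ k : ℕ) := by
  induction k with
  | zero =>
    intro a
    have h1 : ∀ u, {b | par b = u}.encard ≤ 7 := fun u => by
      have := encard_le_encard_of_injOn (s := {b | par b = u}) (t := (Finset.range 7 : Set ℕ))
        (f := ch) (fun b _ => by simpa using (lt_par b).2) fun a ha b hb => pinj a b (ha.trans hb.symm)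
      rwa [encard_coe_eq_coe_finsetCard, Finset.card_range] at this
    refine (encard_le_encard (t := ({a} ∪ {par a}) ∪ ({b | par b = a} ∪ {b | par b = par a})) ?_).trans
      ((encard_union_le _ _).trans ((add_le_add (encard_union_le _ _) ((encard_union_le _ _).trans
        (add_le_add (h1 _) (h1 _)))).trans (by simp; norm_num)))
    rintro b ⟨i, hi, j, hj, h⟩
    rw [pow_zero] at hi hj
    interval_cases i <;> interval_cases j <;> simp_all
  | succ k ih =>
    intro a
    refine (encard_le_encard (t := {b | b / 8 ∈ {b | Nr par (2 ^ k) (a / 8) b}}) ?_).trans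
      ((fib _ (by norm_num)).trans ((mul_le_mul_left (ih _) _).trans (by norm_cast; ring_nf; rfl)))
    rintro b ⟨i, hi, j, hj, h⟩
    obtain ⟨i', h1, h2⟩ := it1 (r := 2 ^ k) (hi.trans_eq (pow_succ' _ _)) a
    obtain ⟨j', h3, h4⟩ := it1 (r := 2 ^ k) (hj.trans_eq (pow_succ' _ _)) b
    exact ⟨i', h1, j', h3, by rw [← h2, ← h4, h]⟩

lemma lo1 (k : ℕ) : ∀ e, ∃ i < 2 ^ k, par^[i] e + 1 = 8 ^ k * (e / 8 ^ k + 1) := by
  induction k with
  | zero => exact fun e => ⟨0, by simp, by simp⟩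
  | succ k ih =>
    intro e
    obtain ⟨i, h1, h2⟩ := ih (e / 8)
    rw [← it2, Nat.div_div_eq_div_mul, ← pow_succ'] at h2
    rw [pow_succ' 8, mul_assoc, ← pow_succ' 8, ← h2, pow_succ]
    by_cases h : par^[2 * i] e % 8 = 7
    · exact ⟨2 * i, by omega, by omega⟩
    · exact ⟨2 * i + 1, by omega, by rw [iterate_succ_apply', (p0 h).1]; omega⟩

def Par (v : ℕ) : ℕ := if v % 10 = 9 then 10 * par (v / 10) + ch (v / 10) else v + 1

def lab (v : ℕ) : Fin 3 := ⟨(if v % 10 = 9 then ch (v / 10) else v % 10) % 3, Nat.mod_lt _ (by norm_num)⟩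

lemma lt_Par (v : ℕ) : v < Par v := by
  have := lt_par (v / 10)
  unfold Par; split_ifs <;> omega

lemma Pinj {u v : ℕ} (h1 : Par u = Par v) (h2 : lab u = lab v) : u = v := by
  have := lt_par (u / 10)
  have := lt_par (v / 10)
  have := pinj (u / 10) (v / 10)
  simp only [Par, lab, Fin.mk.injEq] at h1 h2
  split_ifs at h1 h2 <;> omega

lemma itP (a : ℕ) : ∀ v, v % 10 + a ≤ 9 → Par^[a] v = v + a := by
  induction a with
  | zero => simp
  | succ a ih =>
    intro v h
    rw [iterate_succ_apply', ih v (by omega), Par, if_neg (by omega), add_assoc]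

lemma win (v : ℕ) (j : Fin 3) : ∃ a < 6, lab (Par^[a] v) = j := by
  have h1 : ∀ v, v % 10 ≤ 6 → ∃ a < 3, lab (Par^[a] v) = j := fun v h =>
    ⟨(j + 2 * (v % 10)) % 3, by omega, Fin.ext (by
      have := j.2
      rw [itP _ _ (by omega), lab]
      simp only
      rw [if_neg (by omega), show (v + (j + 2 * (v % 10)) % 3) % 10 = v % 10 + (j + 2 * (v % 10)) % 3 by
        omega]
      omega)⟩
  by_cases h : v % 10 ≤ 6
  · obtain ⟨a, h2, h3⟩ := h1 v h
    exact ⟨a, by omega, h3⟩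
  · have := lt_par ((v + (9 - v % 10)) / 10)
    obtain ⟨a, h2, h3⟩ := h1 (Par^[9 - v % 10 + 1] v) (by
      rw [iterate_succ_apply', itP _ _ (by omega), Par, if_pos (by omega)]
      omega)
    exact ⟨a + (9 - v % 10 + 1), by omega, by rwa [iterate_add_apply]⟩

lemma itD (i v : ℕ) : ∃ j ≤ i, Par^[i] v / 10 = par^[j] (v / 10) := by
  induction i with
  | zero => exact ⟨0, le_rfl, rfl⟩
  | succ i ih =>
    obtain ⟨j, h1, h2⟩ := ih
    have := lt_par (Par^[i] v / 10)
    rw [iterate_succ_apply', Par]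
    split_ifs
    · exact ⟨j + 1, by omega, by rw [iterate_succ_apply', ← h2]; omega⟩
    · exact ⟨j, by omega, by omega⟩

lemma up2 (k a : ℕ) : {b | Nr Par (2 ^ k) a b}.encard ≤ (160 * 8 ^ k : ℕ) := by
  refine (encard_le_encard (t := {b | b / 10 ∈ {b | Nr par (2 ^ k) (a / 10) b}}) ?_).trans
    ((fib _ (by norm_num)).trans ((mul_le_mul_left (up1 _ _) _).trans (by norm_cast; ring_nf; rfl)))
  rintro b ⟨i, hi, j, hj, h⟩
  obtain ⟨i', h1, h2⟩ := itD i a
  obtain ⟨j', h3, h4⟩ := itD j b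
  exact ⟨i', h1.trans hi, j', h3.trans hj, by rw [← h2, ← h4, h]⟩

lemma itU (i v : ℕ) : ∃ a ≤ 10 * i + 9, Par^[a] v = 10 * par^[i] (v / 10) + 9 := by
  induction i with
  | zero => exact ⟨9 - v % 10, by omega, by rw [itP _ _ (by omega), iterate_zero_apply]; omega⟩
  | succ i ih =>
    obtain ⟨a, h1, h2⟩ := ih
    have := lt_par (par^[i] (v / 10))
    refine ⟨9 - ch (par^[i] (v / 10)) + (a + 1), by omega, ?_⟩
    rw [iterate_add_apply, iterate_succ_apply', h2, Par, if_pos (by omega), iterate_succ_apply',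
      show (10 * par^[i] (v / 10) + 9) / 10 = par^[i] (v / 10) by omega, itP _ _ (by omega)]
    omega

lemma lo2 {k u v : ℕ} (h : u / (10 * 8 ^ k) = v / (10 * 8 ^ k)) : Nr Par (10 * 2 ^ k) u v := by
  obtain ⟨i, h1, h2⟩ := lo1 k (u / 10)
  obtain ⟨j, h3, h4⟩ := lo1 k (v / 10)
  obtain ⟨a, h5, h6⟩ := itU i u
  obtain ⟨b, h7, h8⟩ := itU j v
  rw [Nat.div_div_eq_div_mul] at h2 h4
  rw [h, ← h4] at h2
  exact ⟨a, by omega, b, by omega, by omega⟩

lemma merge (u v : ℕ) : ∃ i j, Par^[i] u = Par^[j] v := by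
  have h : u + v < 8 ^ (u + v) := Nat.lt_pow_self (by norm_num)
  obtain ⟨i, -, j, -, h⟩ := lo2 (k := u + v) (u := u) (v := v) (by
    rw [Nat.div_eq_of_lt (by omega), Nat.div_eq_of_lt (by omega)])
  exact ⟨i, j, h⟩

lemma smono (v : ℕ) : StrictMono fun n => Par^[n] v :=
  strictMono_nat_of_lt_succ fun n => by rw [iterate_succ_apply']; exact lt_Par _

lemma coc {G : Type} [Group G] (g : ℕ → G) : ∃ a : ℕ → G, a 0 = 1 ∧ ∀ v, a v = g v * a (Par v) := by
  obtain ⟨h, h0, h1⟩ : ∃ h : ℕ → ℕ → G, (∀ v, h 0 v = 1) ∧ ∀ n v, h (n + 1) v = g v * h n (Par v) :=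
    ⟨fun n => Nat.rec (fun _ => 1) (fun _ r v => g v * r (Par v)) n, fun _ => rfl, fun _ _ => rfl⟩
  have h2 : ∀ d n v, h (n + d) v = h n v * h d (Par^[n] v) := fun d n => by
    induction n with
    | zero => simp [h0]
    | succ n ih => intro v; rw [Nat.add_right_comm, h1, ih, h1, mul_assoc]; rfl
  have h3 : ∀ v n m n' m', n ≤ n' → Par^[n] v = Par^[m] 0 → Par^[n'] v = Par^[m'] 0 →
      h n v * (h m 0)⁻¹ = h n' v * (h m' 0)⁻¹ := fun v n m n' m' k1 k2 k3 => by
    obtain ⟨d, rfl⟩ := Nat.exists_eq_add_of_le k1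
    obtain rfl : m + d = m' := (smono 0).injective (by
      simp only [← k3]; rw [add_comm, add_comm n, iterate_add_apply, iterate_add_apply, k2])
    rw [h2, h2, k2]; group
  choose n m h4 using fun v => merge v 0
  have h5 : ∀ v n' m', Par^[n'] v = Par^[m'] 0 → h (n v) v * (h (m v) 0)⁻¹ = h n' v * (h m' 0)⁻¹ :=
    fun v n' m' k => (le_total (n v) n').elim (fun k1 => h3 _ _ _ _ _ k1 (h4 v) k)
      fun k1 => (h3 _ _ _ _ _ k1 k (h4 v)).symm
  refine ⟨fun v => h (n v) v * (h (m v) 0)⁻¹, by simpa [h0] using h5 0 0 0 rfl, fun v => ?_⟩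
  beta_reduce
  rw [h5 v (n (Par v) + 1) (m (Par v)) (h4 _), h1, mul_assoc]

end Pool.Agent.H.MP_295da9_pr
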