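import Pool.Agent.H.MP_295da9_pr.A

namespace Pool.Agent.H.MP_295da9_pr

open Set Function

abbrev V3 := Fin 3 → ℝ

noncomputable def M (j : Fin 3) : V3 ≃ₗ[ℝ] V3 where
  toFun x i := if i = j then 3 * x j else x i - x j
  invFun x i := if i = j then x j / 3 else x i + x j / 3
  map_add' x y := by ext i; simp only [Pi.add_apply]; split_ifs <;> ring
  map_smul' c x := by ext i; simp only [Pi.smul_apply, smul_eq_mul, RingHom.id_apply]; split_ifs <;> ring
  left_inv x := by ext i; by_cases h : i = j <;> simp [h]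
  right_inv x := by ext i; by_cases h : i = j <;> simp [h]; ring

lemma M1 (j : Fin 3) (x : V3) : M j x j = 3 * x j := if_pos rfl
lemma M2 {i j : Fin 3} (h : i ≠ j) (x : V3) : M j x i = x i - x j := if_neg h

noncomputable def aa : ℕ → V3 ≃ₗ[ℝ] V3 := (coc fun v => M (lab v)).choose

lemma aa1 (v : ℕ) (x : V3) : aa v x = M (lab v) (aa (Par v) x) :=
  congrArg (fun f : V3 ≃ₗ[ℝ] V3 => f x) ((coc fun v => M (lab v)).choose_spec.2 v)

lemma sumM (j : Fin 3) (x : V3) : ∑ i, M j x i = ∑ i, x i := by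
  fin_cases j <;> simp [Fin.sum_univ_three, M] <;> ring

lemma suma (v : ℕ) (x : V3) : ∑ i, aa v x i = ∑ i, x i := by
  have h : ∀ n v, ∑ i, aa v x i = ∑ i, aa (Par^[n] v) x i := fun n => by
    induction n with
    | zero => simp
    | succ n ih => intro v; rw [aa1, sumM, ih]; rfl
  obtain ⟨i, j, h1⟩ := merge v 0
  rw [h i, h1, ← h j, aa, (coc fun v => M (lab v)).choose_spec.1]
  rfl

def io (x : ℝ × ℝ) : V3 := ![x.1, x.2, 1 - x.1 - x.2]

noncomputable def P (v : ℕ) : ℝ × ℝ := ((aa v).symm (fun _ => 1 / 3) 0, (aa v).symm (fun _ => 1 / 3) 1)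

lemma aP (v : ℕ) : aa v (io (P v)) = fun _ => 1 / 3 := by
  have h := suma v ((aa v).symm fun _ => 1 / 3)
  rw [LinearEquiv.apply_symm_apply, Fin.sum_univ_three, Fin.sum_univ_three] at h
  rw [← LinearEquiv.eq_symm_apply]
  ext i
  fin_cases i <;> simp [io, P]
  simp at h
  linarith

lemma win' (v : ℕ) (j : Fin 3) : ∃ a, lab (Par^[a] v) = j := (win v j).imp fun _ h => h.2

noncomputable def C (v : ℕ) (j : Fin 3) : ℕ := Par^[Nat.find (win' v j) + 1] v

lemma C1 (v : ℕ) : C v = update (C (Par v)) (lab v) (Par v) := by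
  ext j
  by_cases h : j = lab v
  · rw [h, update_self, C, (Nat.find_eq_zero (win' v (lab v))).2 rfl]; rfl
  · rw [update_of_ne h, C, C, Nat.find_comp_succ (win' v j) (win' (Par v) j) (Ne.symm h)]; rfl

lemma C2 (v : ℕ) (j : Fin 3) : ∃ a ≤ 6, C v j = Par^[a] v := by
  obtain ⟨a, h1, h2⟩ := win v j
  exact ⟨_, (Nat.succ_le_succ (Nat.find_min' _ h2)).trans h1, rfl⟩

lemma Me {i j : Fin 3} (h : i ≠ j) : M j (Pi.single i 1) = Pi.single i 1 := by
  ext k
  by_cases h1 : k = j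
  · rw [h1, M1, Pi.single_eq_of_ne' h, mul_zero]
  · rw [M2 h1, Pi.single_eq_of_ne' h, sub_zero]

lemma Mc (j : Fin 3) : M j (fun _ => 1 / 3) = Pi.single j 1 := by
  ext k
  by_cases h1 : k = j
  · rw [h1, M1, Pi.single_eq_same]; norm_num
  · rw [M2 h1, Pi.single_eq_of_ne h1, sub_self]

lemma C3 (v : ℕ) (i : Fin 3) : aa v (io (P (C v i))) = Pi.single i 1 := by
  obtain ⟨a, h⟩ := win' v i
  induction a generalizing v with
  | zero => rw [aa1, C1, ← show lab v = i from h, update_self, aP, Mc]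
  | succ a ih =>
    by_cases h1 : i = lab v
    · rw [aa1, C1, h1, update_self, aP, Mc]
    · rw [aa1, C1, update_of_ne h1, ih _ h, Me h1]

abbrev Cell := ℕ × Fin 3

def up (c : Cell) : Cell := (Par c.1, lab c.1)
noncomputable def L (c : Cell) : Fin 3 → ℕ := update (C c.1) c.2 c.1
noncomputable def Λ (c : Cell) (x : ℝ × ℝ) : V3 := M c.2 (aa c.1 (io x))

lemma Lu (c : Cell) : L c = update (L (up c)) c.2 c.1 := by rw [L, C1]; rfl
lemma Λu (c : Cell) (x : ℝ × ℝ) : Λ c x = M c.2 (Λ (up c) x) := by rw [Λ, aa1]; rfl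

lemma L2 (c : Cell) (j : Fin 3) : ∃ a ≤ 6, L c j = Par^[a] c.1 := by
  by_cases h : j = c.2
  · exact ⟨0, by simp, by rw [h, L, update_self]; rfl⟩
  · rw [L, update_of_ne h]; exact C2 _ _

lemma L3 (c : Cell) (i : Fin 3) : Λ c (P (L c i)) = Pi.single i 1 := by
  by_cases h : i = c.2
  · rw [h, L, update_self, Λ, aP, Mc]
  · rw [L, update_of_ne h, Λ, C3, Me h]

lemma Λs (c : Cell) (x : ℝ × ℝ) : ∑ i, Λ c x i = 1 := by
  rw [Λ, sumM, suma]; simp [Fin.sum_univ_three, io]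

lemma Λw (c : Cell) (w : V3) {y : ℝ × ℝ} (h : ∑ i, w i • P (L c i) = y) :
    M c.2 (aa c.1 ![y.1, y.2, ∑ i, w i - y.1 - y.2]) = w := by
  have h1 : ![y.1, y.2, ∑ i, w i - y.1 - y.2] = ∑ i, w i • io (P (L c i)) := by
    ext i
    fin_cases i <;> simp [← h, Fin.sum_univ_three, io]
    ring
  have h2 := L3 c
  simp only [Λ] at h2
  simp only [h1, map_sum, map_smul, h2]
  ext i
  simp [Pi.single_apply]

lemma rep (c : Cell) (x : ℝ × ℝ) : ∑ i, Λ c x i • P (L c i) = x := by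
  have h := Λw c (Λ c x) rfl
  rw [Λs] at h
  have h1 := (aa c.1).injective ((M c.2).injective h)
  exact Prod.ext (congrFun h1 0) (congrFun h1 1)

lemma ind (c : Cell) : AffineIndependent ℝ fun i => P (L c i) := by
  refine affineIndependent_iff.2 fun s w h1 h2 i hi => ?_
  have h := Λw c (fun i => if i ∈ s then w i else 0) (y := 0) (by simpa using h2)
  have h3 := congrFun h i
  rw [Finset.sum_ite_mem, Finset.univ_inter, h1, show (![(0 : ℝ × ℝ).1, (0 : ℝ × ℝ).2,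
    0 - (0 : ℝ × ℝ).1 - (0 : ℝ × ℝ).2] : V3) = 0 by ext i; fin_cases i <;> simp] at h3
  simpa [hi] using h3.symm

def In (c : Cell) (x : ℝ × ℝ) : Prop := ∀ i, 0 ≤ Λ c x i
def car (c : Cell) (x : ℝ × ℝ) : Set ℕ := L c '' {i | Λ c x i ≠ 0}
def F (c : Cell) : Prop := ∀ d, up d ≠ c

lemma hull1 {c : Cell} {s : Set (ℝ × ℝ)} (hs : s ⊆ range fun i => P (L c i)) {x : ℝ × ℝ}
    (hx : x ∈ convexHull ℝ s) : In c x ∧ P '' car c x ⊆ s := by
  have h := convexHull_min (t := {x | ∀ i, 0 ≤ Λ c x i ∧ (P (L c i) ∉ s → Λ c x i = 0)}) (fun x hx i => by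
    obtain ⟨j, rfl⟩ := hs hx
    beta_reduce at hx ⊢
    rw [L3, Pi.single_apply]
    split_ifs with h
    · exact ⟨zero_le_one, fun h1 => absurd (h ▸ hx) h1⟩
    · simp) (fun x hx y hy a b a0 b0 ab i => by
    have h1 : io (a • x + b • y) = a • io x + b • io y := by
      ext i
      fin_cases i <;> simp [io]
      linear_combination -ab
    have h2 : Λ c (a • x + b • y) i = a * Λ c x i + b * Λ c y i := by simp [Λ, h1]
    rw [h2]
    exact ⟨add_nonneg (mul_nonneg a0 (hx i).1) (mul_nonneg b0 (hy i).1),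
      fun h => by rw [(hx i).2 h, (hy i).2 h]; simp⟩) hx
  refine ⟨fun i => (h i).1, ?_⟩
  rintro _ ⟨_, ⟨i, hi, rfl⟩, rfl⟩
  exact not_not.1 fun h1 => hi ((h i).2 h1)

lemma hull2 {c : Cell} {x : ℝ × ℝ} (h : In c x) : x ∈ convexHull ℝ (P '' car c x) := by
  classical
  have h1 := (convex_convexHull ℝ (P '' car c x)).sum_mem (t := Finset.univ.filter fun i => Λ c x i ≠ 0)
    (w := Λ c x) (z := fun i => P (L c i)) (fun i _ => h i) (by rw [Finset.sum_filter_ne_zero, Λs])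
    fun i hi => subset_convexHull _ _ ⟨_, ⟨i, (Finset.mem_filter.1 hi).2, rfl⟩, rfl⟩
  rwa [Finset.sum_filter_of_ne (p := fun i => Λ c x i ≠ 0) fun i _ h2 h3 => h2 (by rw [h3, zero_smul]),
    rep] at h1

lemma In.mn {c : Cell} {x : ℝ × ℝ} (h : In c x) (i : Fin 3) :
    0 ≤ Λ (up c) x c.2 ∧ Λ (up c) x c.2 ≤ Λ (up c) x i := by
  have h1 := h c.2
  have h2 := h i
  rw [Λu, M1] at h1
  refine ⟨by linarith, ?_⟩
  by_cases h3 : i = c.2
  · rw [h3]
  · rw [Λu, M2 h3] at h2; linarith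

lemma In.it {c : Cell} {x : ℝ × ℝ} (h : In c x) (n : ℕ) : In (up^[n] c) x := by
  induction n with
  | zero => exact h
  | succ n ih => rw [iterate_succ_apply']; exact fun i => (ih.mn i).1.trans (ih.mn i).2

lemma In.bd {c : Cell} {x : ℝ × ℝ} (h : In c x) (n : ℕ) (h1 : ∃ i, Λ (up^[n] c) x i = 0) :
    car c x = car (up^[n] c) x := by
  induction n with
  | zero => rfl
  | succ n ih =>
    have h2 := h.it n
    rw [iterate_succ_apply'] at h1 ⊢
    generalize up^[n] c = d at *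
    obtain ⟨i, h1⟩ := h1
    have h3 : Λ (up d) x d.2 = 0 := le_antisymm (h1 ▸ (h2.mn i).2) (h2.mn i).1
    have h4 : Λ d x = Λ (up d) x := by
      ext k
      rw [Λu]
      by_cases h4 : k = d.2
      · rw [h4, M1, h3, mul_zero]
      · rw [M2 h4, h3, sub_zero]
    rw [ih ⟨i, h4 ▸ h1⟩, car, car, h4, Lu]
    exact image_congr fun k hk => update_of_ne (fun h : k = d.2 => hk (h ▸ h3)) _ _

lemma sib {v : ℕ} {j k : Fin 3} (h : j ≠ k) {x : ℝ × ℝ} (h1 : In (v, j) x) (h2 : In (v, k) x) :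
    Λ (v, j) x k = 0 ∧ car (v, j) x ⊆ car (v, k) x := by
  have h3 : Λ (up (v, j)) x k = Λ (up (v, j)) x j := le_antisymm (h2.mn j).2 (h1.mn k).2
  have h4 : Λ (v, j) x k = 0 := by rw [Λu, M2 h.symm, h3, sub_self]
  refine ⟨h4, ?_⟩
  rintro _ ⟨i, hi, rfl⟩
  by_cases h5 : i = j
  · refine ⟨k, ?_, by simp [L, h5]⟩
    rw [mem_ofPred_eq, Λu, h5, M1] at hi
    rwa [mem_ofPred_eq, Λu, M1, show up (v, k) = up (v, j) from rfl, h3]
  · have h6 : i ≠ k := fun h => hi (h ▸ h4)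
    refine ⟨i, ?_, by simp [L, h5, h6]⟩
    rw [mem_ofPred_eq, Λu, M2 h5] at hi
    rwa [mem_ofPred_eq, Λu, M2 h6, show up (v, k) = up (v, j) from rfl, h3]

lemma upit (c : Cell) (n : ℕ) : (up^[n] c).1 = Par^[n] c.1 := by
  induction n with
  | zero => rfl
  | succ n ih => rw [iterate_succ_apply', iterate_succ_apply', ← ih]; rfl

lemma same {c c' : Cell} (hc : F c) (hc' : F c') {x : ℝ × ℝ} (h : In c x) (h' : In c' x) :
    car c x = car c' x := by
  have H : ∀ n m, up^[n] c = up^[m] c' → car c x = car c' x := fun n => by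
    induction n with
    | zero =>
      rintro (_ | m) h1
      · rw [show c = c' from h1]
      · exact absurd ((iterate_succ_apply' _ _ _).symm.trans h1.symm) (hc _)
    | succ n ih =>
      rintro (_ | m) h1
      · exact absurd ((iterate_succ_apply' _ _ _).symm.trans h1) (hc' _)
      rw [iterate_succ_apply', iterate_succ_apply'] at h1
      have h2 := h.it n
      have h3 := h'.it m
      have h4 := h.bd n
      have h5 := h'.bd m
      specialize ih m
      generalize up^[n] c = d at *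
      generalize up^[m] c' = d' at *
      obtain ⟨v, j⟩ := d
      obtain ⟨v', k⟩ := d'
      obtain rfl : v = v' := Pinj (congrArg Prod.fst h1) (congrArg Prod.snd h1)
      by_cases h6 : j = k
      · exact ih (h6 ▸ rfl)
      · rw [h4 ⟨k, (sib h6 h2 h3).1⟩, h5 ⟨j, (sib (Ne.symm h6) h3 h2).1⟩]
        exact (sib h6 h2 h3).2.antisymm (sib (Ne.symm h6) h3 h2).2
  obtain ⟨n, m, h1⟩ := merge c.1 c'.1
  refine H (n + 1) (m + 1) ?_
  rw [iterate_succ_apply', iterate_succ_apply', up, up, upit, upit, h1]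

lemma desc (R : Cell → Prop) (h : ∀ d, R (up d) → ∃ j, R (d.1, j)) (c : Cell) (hc : R c) :
    ∃ c', F c' ∧ R c' ∧ c'.1 ≤ c.1 := by
  induction hn : c.1 using Nat.strong_induction_on generalizing c with
  | _ n ih =>
    by_cases h1 : F c
    · exact ⟨c, h1, hc, hn.le⟩
    simp only [F, not_forall, not_not] at h1
    obtain ⟨d, rfl⟩ := h1
    obtain ⟨j, hj⟩ := h d hc
    have h2 : d.1 < n := hn ▸ lt_Par d.1
    obtain ⟨c', h3, h4, h5⟩ := ih d.1 h2 (d.1, j) hj rfl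
    exact ⟨c', h3, h4, h5.trans h2.le⟩

lemma desc1 {c : Cell} {x : ℝ × ℝ} (h : In c x) : ∃ c', F c' ∧ In c' x ∧ c'.1 ≤ c.1 :=
  desc (In · x) (fun d hd => by
    obtain ⟨j, hj⟩ := Finite.exists_min (Λ (up d) x)
    refine ⟨j, fun i => ?_⟩
    rw [Λu, show up (d.1, j) = up d from rfl]
    by_cases h1 : i = j
    · rw [h1, M1]; linarith [hd j]
    · rw [M2 h1]; linarith [hj i]) c h

lemma desc2 (c : Cell) (i i' : Fin 3) : ∃ c', F c' ∧ L c' i = L c i ∧ L c' i' = L c i' :=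
  (desc (fun d => L d i = L c i ∧ L d i' = L c i') (fun d hd => by
    obtain ⟨j, h1, h2⟩ : ∃ j, i ≠ j ∧ i' ≠ j := by clear hd; revert i i'; decide
    exact ⟨j, by rw [Lu, update_of_ne h1]; exact hd.1, by rw [Lu, update_of_ne h2]; exact hd.2⟩) c
    ⟨rfl, rfl⟩).imp fun _ h => ⟨h.1, h.2.1⟩

lemma Pinj' : Injective P := fun u v h => by
  have h1 : ∀ u, ∃ c, F c ∧ In c (P u) ∧ car c (P u) = {u} := fun u => by
    obtain ⟨c, h1, h2, -⟩ := desc2 (u, 0) 0 0
    have h3 := L3 c 0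
    rw [show L (u, 0) 0 = u by simp [L]] at h2
    rw [h2] at h3
    refine ⟨c, h1, fun i => by rw [h3, Pi.single_apply]; split_ifs <;> simp, ?_⟩
    rw [car, h3, show {i : Fin 3 | (Pi.single 0 1 : V3) i ≠ 0} = {0} by ext i; simp [Pi.single_apply],
      image_singleton, h2]
  obtain ⟨c, k1, k2, k3⟩ := h1 u
  obtain ⟨d, k4, k5, k6⟩ := h1 v
  rw [← h] at k5 k6
  exact singleton_injective (k3 ▸ k6 ▸ same k1 k4 k2 k5)

lemma pos1 (n : ℕ) {x : V3} : ∀ v, 0 ≤ aa v x → ∀ i, aa v x i ≤ 3 ^ n * aa (Par^[n] v) x i ∧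
    0 ≤ aa (Par^[n] v) x ∧ ∀ a < n, aa v x (lab (Par^[a] v)) ≤ 3 ^ n * aa (Par^[n] v) x i := by
  induction n with
  | zero => exact fun v h i => ⟨by simp, h, by simp⟩
  | succ n ih =>
    intro v h i
    have h1 : ∀ k, aa v x (lab v) ≤ 3 * aa (Par v) x k ∧ aa v x k ≤ 3 * aa (Par v) x k := fun k => by
      have h2 := h k
      have h3 := h (lab v)
      rw [Pi.zero_apply, aa1 v] at h2 h3
      rw [aa1 v]
      by_cases h4 : k = lab v
      · simp [h4, M1]
      · rw [M2 h4] at h2 ⊢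
        rw [M1] at h3 ⊢
        constructor <;> linarith
    obtain ⟨h2, h3, h4⟩ := ih (Par v) (fun k => show 0 ≤ aa (Par v) x k by
      linarith [(h1 k).1, show 0 ≤ aa v x (lab v) from h _]) i
    rw [iterate_succ_apply, pow_succ]
    refine ⟨by linarith [(h1 i).2], h3, ?_⟩
    rintro (_ | a) ha
    · rw [iterate_zero_apply]; linarith [(h1 i).1]
    · rw [iterate_succ_apply]; linarith [(h1 (lab (Par^[a] (Par v)))).2, h4 a (by omega)]

lemma pos2 {x : V3} {v : ℕ} (h : 0 ≤ aa v x) (i : Fin 3) : (∑ i, x i) / 2187 ≤ aa (Par^[6] v) x i := by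
  have h1 : ∀ j, aa v x j ≤ 3 ^ 6 * aa (Par^[6] v) x i := fun j => by
    obtain ⟨a, h1, rfl⟩ := win v j
    exact (pos1 6 v h i).2.2 a h1
  rw [← suma v, Fin.sum_univ_three]
  linarith [h1 0, h1 1, h1 2]

lemma cover (x : ℝ × ℝ) : ∃ n, In (up^[n] (0, 0)) x := by
  have h1 : ∀ k, ∃ q : V3, 0 ≤ aa (Par^[6 * k] 0) (io x + q) ∧ 0 ≤ aa (Par^[6 * k] 0) q ∧
      ∑ i, q i ≤ (728 / 729) ^ k * ∑ i, |aa 0 (io x) i| := fun k => by
    induction k with
    | zero =>
      refine ⟨(aa 0).symm fun i => |aa 0 (io x) i|, fun i => ?_, fun i => by simp, ?_⟩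
      · simpa using neg_le_iff_add_nonneg'.1 (neg_le_abs _)
      · rw [← suma 0]; simp
    | succ k ih =>
      obtain ⟨q, h1, h2, h3⟩ := ih
      have h4 := pos2 h1
      have h5 := pos2 h2
      rw [← iterate_add_apply, show 6 + 6 * k = 6 * (k + 1) by ring] at h4 h5
      have h6 : ∑ i, io x i = 1 := by simp [io, Fin.sum_univ_three]
      simp only [Pi.add_apply, Finset.sum_add_distrib, h6] at h4
      refine ⟨q - (aa (Par^[6 * (k + 1)] 0)).symm fun _ => (∑ i, q i) / 2187, fun i => ?_, fun i => ?_, ?_⟩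
      · rw [← add_sub_assoc, map_sub, LinearEquiv.apply_symm_apply, Pi.sub_apply, Pi.zero_apply]
        linarith [h4 i]
      · rw [map_sub, LinearEquiv.apply_symm_apply, Pi.sub_apply, Pi.zero_apply]
        linarith [h5 i]
      · simp only [Pi.sub_apply, Finset.sum_sub_distrib]
        rw [← suma (Par^[6 * (k + 1)] 0) ((aa _).symm _), LinearEquiv.apply_symm_apply, pow_succ]
        simp only [Finset.sum_const, Finset.card_univ, Fintype.card_fin, nsmul_eq_mul, Nat.cast_ofNat]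
        linarith
  obtain ⟨k, hk⟩ := (((tendsto_pow_atTop_nhds_zero_of_lt_one (r := (728 / 729 : ℝ)) (by norm_num)
    (by norm_num)).mul_const (∑ i, |aa 0 (io x) i|)).eventually (gt_mem_nhds
      (show 0 * _ < (1 / 2187 : ℝ) by norm_num))).exists
  obtain ⟨q, h2, h3, h4⟩ := h1 k
  refine ⟨6 + 6 * k + 1, fun i => ?_⟩
  have h5 := pos2 h2 i
  have h6 := (pos1 6 _ h3 i).2.1
  have h7 := Finset.single_le_sum (fun j _ => h6 j) (Finset.mem_univ i)
  have h8 := Finset.sum_nonneg fun j (_ : j ∈ Finset.univ) => h6 j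
  rw [suma] at h7 h8
  rw [iterate_succ_apply', up, Λ, ← aa1, upit, iterate_add_apply]
  simp only [Pi.add_apply, Finset.sum_add_distrib, map_add,
    show ∑ i, io x i = 1 by simp [io, Fin.sum_univ_three]] at h5
  linarith

end Pool.Agent.H.MP_295da9_pr
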