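import Pool.Agent.H.MP_295da9_pr.B

namespace Pool.Agent.H.MP_295da9_pr

open Set Function MeasureTheory ProbabilityTheory

def K : Geometry.SimplicialComplex ℝ (ℝ × ℝ) where
  faces := {s | s.Nonempty ∧ ∃ c, F c ∧ (s : Set (ℝ × ℝ)) ⊆ range fun i => P (L c i)}
  isRelLowerSet_faces := fun _ ⟨h1, c, h2, h3⟩ => ⟨h1, fun _ h4 h5 =>
    ⟨h5, c, h2, (Finset.coe_subset.2 h4).trans h3⟩⟩
  indep := fun ⟨_, c, _, h⟩ => (ind c).range.mono h
  inter_subset_convexHull := fun ⟨_, c, h1, h2⟩ ⟨_, d, h3, h4⟩ x ⟨h5, h6⟩ =>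
    convexHull_mono (subset_inter (hull1 h2 h5).2
      (same h1 h3 (hull1 h2 h5).1 (hull1 h4 h6).1 ▸ (hull1 h4 h6).2)) (hull2 (hull1 h2 h5).1)

lemma Kface {c : Cell} (h : F c) : Finset.univ.image (fun i => P (L c i)) ∈ K.faces :=
  ⟨by simp, c, h, by simp⟩

lemma Kspace : K.space = univ := eq_univ_of_forall fun x => by
  obtain ⟨n, h⟩ := cover x
  obtain ⟨c, h1, h2, -⟩ := desc1 h
  refine K.convexHull_subset_space (Kface h1) (convexHull_mono ?_ (hull2 h2))
  rintro _ ⟨_, ⟨i, -, rfl⟩, rfl⟩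
  simp

lemma Kvert : range P = K.vertices := by
  ext x
  constructor
  · rintro ⟨v, rfl⟩
    obtain ⟨c, h1, h2, -⟩ := desc2 (v, 0) 0 0
    exact ⟨by simp, c, h1, by simpa using ⟨0, by rw [h2]; simp [L]⟩⟩
  · rintro ⟨-, c, -, h⟩
    obtain ⟨i, hi⟩ := h (Finset.mem_singleton_self x)
    exact ⟨_, hi⟩

lemma Kloc {B : Set (ℝ × ℝ)} (hB : Bornology.IsBounded B) :
    {s ∈ K.faces | (convexHull ℝ (s : Set (ℝ × ℝ)) ∩ B).Nonempty}.Finite := by
  obtain ⟨R, R0, hR⟩ := hB.exists_pos_norm_le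
  obtain ⟨n1, h1⟩ := cover (-R, -R)
  obtain ⟨n2, h2⟩ := cover (3 * R, -R)
  obtain ⟨n3, h3⟩ := cover (-R, 3 * R)
  obtain ⟨d, k1, k2, k3⟩ : ∃ d, In d (-R, -R) ∧ In d (3 * R, -R) ∧ In d (-R, 3 * R) :=
    ⟨up^[n1 + n2 + n3] (0, 0), by
      rw [add_assoc, add_comm, iterate_add_apply]; exact h1.it _, by
      rw [add_right_comm, iterate_add_apply]; exact h2.it _, by rw [iterate_add_apply]; exact h3.it _⟩
  have h4 : ∀ x ∈ B, In d x := fun x hx i => by
    have e1 := abs_le.1 ((norm_fst_le x).trans (hR x hx))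
    have e2 := abs_le.1 ((norm_snd_le x).trans (hR x hx))
    have e3 : io x = (1 - (x.1 + R) / (4 * R) - (x.2 + R) / (4 * R)) • io (-R, -R) +
        ((x.1 + R) / (4 * R)) • io (3 * R, -R) + ((x.2 + R) / (4 * R)) • io (-R, 3 * R) := by
      ext i
      fin_cases i <;> simp [io] <;> field_simp <;> ring
    rw [Λ, e3]
    simp only [map_add, map_smul, Pi.add_apply, Pi.smul_apply, smul_eq_mul]
    refine add_nonneg (add_nonneg (mul_nonneg ?_ (k1 i)) (mul_nonneg (div_nonneg (by linarith)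
      (by linarith)) (k2 i))) (mul_nonneg (div_nonneg (by linarith) (by linarith)) (k3 i))
    rw [sub_sub, ← add_div, sub_nonneg, div_le_one (by linarith)]
    linarith
  refine (((finite_Iic ((Finset.range (d.1 + 1)).sup Par^[6])).prod (finite_univ (α := Fin 3))).biUnion (t := fun c =>
    ((Finset.univ.image fun i => P (L c i)).powerset : Set (Finset (ℝ × ℝ))))
      fun _ _ => Finset.finite_toSet _).subset ?_
  rintro s ⟨⟨-, c, e1, e2⟩, x, e3, e4⟩
  refine mem_iUnion₂.2 ⟨c, ⟨?_, trivial⟩, by simpa [← Finset.coe_subset] using e2⟩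
  obtain ⟨c', e5, e6, e7⟩ := desc1 (h4 x e4)
  obtain ⟨i, hi⟩ : ∃ i, Λ c x i ≠ 0 := not_forall.1 fun h => by simpa [h] using Λs c x
  obtain ⟨j, -, hj⟩ : L c i ∈ car c' x := same e1 e5 (hull1 e2 e3).1 e6 ▸ ⟨i, hi, rfl⟩
  obtain ⟨a, -, ha⟩ := L2 c i
  obtain ⟨b, hb, hb'⟩ := L2 c' j
  exact ((smono c.1).monotone a.zero_le).trans ((ha ▸ hj ▸ hb').trans_le (((smono _).monotone hb).trans
    (Finset.le_sup (f := Par^[6]) (Finset.mem_range.2 (Nat.lt_succ_of_le e7)))))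

def G : SimpleGraph ℕ where
  Adj u v := u ≠ v ∧ {P u, P v} ∈ K.faces
  symm := ⟨fun _ _ h => ⟨h.1.symm, Finset.pair_comm (P _) (P _) ▸ h.2⟩⟩
  loopless := ⟨fun _ h => h.1 rfl⟩

lemma adj1 {u v : ℕ} (h : G.Adj u v) : ∃ a ≤ 6, Par^[a] u = v ∨ Par^[a] v = u := by
  obtain ⟨-, -, c, -, h⟩ := h
  obtain ⟨i, hi⟩ := h (show P u ∈ _ by simp)
  obtain ⟨j, hj⟩ := h (show P v ∈ _ by simp)
  obtain ⟨a, h1, h2⟩ := L2 c i
  obtain ⟨b, h3, h4⟩ := L2 c j
  rw [← Pinj' hi, ← Pinj' hj, h2, h4]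
  rcases le_total a b with h5 | h5
  · exact ⟨b - a, by omega, Or.inl (by rw [← iterate_add_apply, Nat.sub_add_cancel h5])⟩
  · exact ⟨a - b, by omega, Or.inr (by rw [← iterate_add_apply, Nat.sub_add_cancel h5])⟩

lemma adj2 (v : ℕ) : G.Adj v (Par v) := by
  obtain ⟨j, hj⟩ := exists_ne (lab v)
  obtain ⟨c, h1, h2, h3⟩ := desc2 (v, j) j (lab v)
  rw [show L (v, j) j = v by simp [L]] at h2
  rw [show L (v, j) (lab v) = Par v by rw [L, update_of_ne hj.symm, C1, update_self]] at h3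
  refine ⟨(lt_Par v).ne, by simp, c, h1, ?_⟩
  rw [Finset.coe_pair, pair_subset_iff]
  exact ⟨⟨j, congrArg P h2⟩, ⟨_, congrArg P h3⟩⟩

lemma wk (v i : ℕ) : ∃ w : G.Walk v (Par^[i] v), w.length = i := by
  induction i generalizing v with
  | zero => exact ⟨.nil, rfl⟩
  | succ i ih => obtain ⟨w, h⟩ := ih (Par v); exact ⟨.cons (adj2 v) w, congrArg (· + 1) h⟩

lemma conn : G.Connected := ⟨fun u v => by
  obtain ⟨i, j, h⟩ := merge u v
  obtain ⟨w, -⟩ := wk u i
  obtain ⟨w', -⟩ := wk v j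
  exact w.reachable.trans (h ▸ w'.reachable.symm)⟩

lemma dl {r u v : ℕ} (h : Nr Par r u v) : G.dist u v ≤ 2 * r := by
  obtain ⟨i, hi, j, hj, h⟩ := h
  obtain ⟨w, h1⟩ := wk u i
  obtain ⟨w', h2⟩ := wk v j
  have h3 := conn.dist_triangle (u := u) (v := Par^[i] u) (w := v)
  have h4 := G.dist_le w
  have h5 := G.dist_le w'
  rw [h2, ← h, G.dist_comm] at h5
  omega

lemma du {u v : ℕ} (w : G.Walk u v) : Nr Par (6 * w.length) u v := by
  induction w with
  | nil => exact ⟨0, le_rfl, 0, le_rfl, rfl⟩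
  | cons h w ih =>
    obtain ⟨i, hi, j, hj, h1⟩ := ih
    rw [SimpleGraph.Walk.length_cons]
    obtain ⟨a, ha, h2 | h2⟩ := adj1 h
    · exact ⟨i + a, by omega, j, by omega, by rw [iterate_add_apply, h2, h1]⟩
    · exact ⟨i, by omega, a + j, by omega, by
        rw [← h2, ← iterate_add_apply, add_comm, iterate_add_apply, h1, iterate_add_apply]⟩

lemma growth (n : ℕ) (hn : 1 ≤ n) (v : ℕ) : {u | G.dist v u ≤ n}.Finite ∧
    (1 / 8000 : ℝ) * n ^ 3 < {u | G.dist v u ≤ n}.ncard ∧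
      ({u | G.dist v u ≤ n}.ncard : ℝ) < 300000 * n ^ 3 := by
  have h1 : {u | G.dist v u ≤ n}.encard ≤ (160 * 8 ^ (Nat.log 2 (6 * n) + 1) : ℕ) :=
    (encard_le_encard fun u hu => by
      obtain ⟨w, hw⟩ := conn.exists_walk_length_eq_dist v u
      obtain ⟨i, hi, j, hj, h⟩ := du w
      have h2 := Nat.lt_pow_succ_log_self one_lt_two (6 * n)
      have h3 : G.dist v u ≤ n := hu
      exact ⟨i, by omega, j, by omega, h⟩).trans (up2 _ v)
  have h2 := finite_of_encard_le_coe h1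
  rw [← h2.cast_ncard_eq, Nat.cast_le] at h1
  have h8 : ∀ k, 8 ^ k = (2 ^ k) ^ 3 := fun k => by rw [← pow_mul, mul_comm, pow_mul]; rfl
  refine ⟨h2, ?_, ?_⟩
  · rw [div_mul_eq_mul_div, one_mul, div_lt_iff₀ (by norm_num)]
    norm_cast
    rcases lt_or_ge n 20 with h | h
    · have := (ncard_pos h2).2 ⟨v, by simp⟩
      have := Nat.pow_lt_pow_left h three_ne_zero
      omega
    obtain ⟨k, hk⟩ : ∃ k, k = Nat.log 2 (n / 20) := ⟨_, rfl⟩
    have h3 := hk ▸ Nat.lt_pow_succ_log_self one_lt_two (n / 20)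
    have h4 := hk ▸ Nat.pow_log_le_self 2 (show n / 20 ≠ 0 by omega)
    obtain ⟨N, hN⟩ : ∃ N, N = 10 * 8 ^ k := ⟨_, rfl⟩
    have h5 := ncard_le_ncard (s := (Finset.Ico (v / N * N) ((v / N + 1) * N) : Set ℕ)) (fun u hu => by
      rw [Finset.coe_Ico] at hu
      exact (dl (lo2 (k := k) (hN ▸ (Nat.div_eq_of_lt_le hu.1 hu.2).symm))).trans (by omega)) h2
    rw [ncard_coe_finset, Nat.card_Ico, add_mul, Nat.add_sub_cancel_left, one_mul, hN, h8] at h5
    have h6 := Nat.pow_lt_pow_left (show n < 40 * 2 ^ k by omega) three_ne_zero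
    rw [mul_pow] at h6
    omega
  · norm_cast
    have h3 := Nat.pow_le_pow_left (Nat.pow_log_le_self 2 (show 6 * n ≠ 0 by omega)) 3
    rw [pow_succ, h8] at h1
    rw [mul_pow] at h3
    have := Nat.pow_pos (n := 3) hn
    omega

lemma prob (W : ℕ → Finset ℕ) (hW : Pairwise (Disjoint on W)) (h6 : ∀ k, (W k).card ≤ 6)
    {p : unitInterval} (hp : p < 1) : setBernoulli univ p {ω | ∀ k, ∃ x ∈ W k, x ∈ ω} = 0 := by
  rw [setBernoulli_apply']
  generalize hμ : (fun i : ℕ => unitInterval.toNNReal p • Measure.dirac (i ∈ (univ : Set ℕ)) +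
    unitInterval.toNNReal (unitInterval.symm p) • Measure.dirac False) = μ
  have : ∀ i, IsProbabilityMeasure (μ i) := fun i => by rw [← hμ]; infer_instance
  obtain ⟨q, hq⟩ : ∃ q : ℝ, q = 1 - p := ⟨_, rfl⟩
  have q0 : 0 < q := hq ▸ sub_pos.2 hp
  have q1 : q ≤ 1 := by linarith [p.2.1]
  have h1 : ∀ k, q ^ 6 ≤ (Measure.infinitePi μ).real {ω | ∀ x ∈ W k, ¬ω x} := fun k => by
    rw [show {ω : ℕ → Prop | ∀ x ∈ W k, ¬ω x} = Set.pi (W k) fun _ => {False} by ext; simp,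
      measureReal_def, Measure.infinitePi_pi _ fun _ _ => MeasurableSet.of_discrete, ← hμ]
    simp only [mem_univ, Measure.coe_add, Measure.coe_smul, Pi.add_apply, Pi.smul_apply,
      Finset.prod_const, ENNReal.toReal_pow]
    simp only [MeasurableSet.singleton, Measure.dirac_apply', mem_singleton_iff, eq_iff_iff, iff_false,
      not_true_eq_false, not_false_eq_true, indicator_of_notMem, smul_zero, indicator_of_mem,
      Pi.one_apply, ENNReal.smul_one, zero_add, ENNReal.coe_toReal, unitInterval.coe_toNNReal,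
      unitInterval.coe_symm_eq, ← hq]
    exact pow_le_pow_of_le_one q0.le q1 (h6 k)
  have h2 : ∀ n, (Measure.infinitePi μ).real {ω | ∀ k < n, ∃ x ∈ W k, ω x} ≤ (1 - q ^ 6) ^ n := fun n => by
    induction n with
    | zero => simp
    | succ n ih =>
      have h3 := ((iIndepFun_infinitePi (P := μ) (X := fun _ ω => ω) fun _ => measurable_id).indepFun_finset
        ((Finset.range n).biUnion W) (W n) ((Finset.disjoint_biUnion_left _ _ _).2 fun k hk =>
          hW (Finset.mem_range.1 hk).ne) fun _ => measurable_pi_apply _).measure_inter_preimage_eq_mul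
        {f | ∀ k < n, ∃ x, x.1 ∈ W k ∧ f x} {f | ∀ x, ¬f x}ᶜ .of_discrete .of_discrete
      have e1 : (fun (ω : ℕ → Prop) (i : (Finset.range n).biUnion W) => ω i) ⁻¹'
          {f | ∀ k < n, ∃ x, x.1 ∈ W k ∧ f x} = {ω | ∀ k < n, ∃ x ∈ W k, ω x} := by
        ext ω
        exact forall₂_congr fun k hk => ⟨fun ⟨x, h⟩ => ⟨x, h⟩, fun ⟨x, h⟩ =>
          ⟨⟨x, Finset.mem_biUnion.2 ⟨k, Finset.mem_range.2 hk, h.1⟩⟩, h⟩⟩
      have e2 : (fun (ω : ℕ → Prop) (i : W n) => ω i) ⁻¹' {f | ∀ x, ¬f x}ᶜ = {ω | ∀ x ∈ W n, ¬ω x}ᶜ := by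
        ext ω; simp
      rw [e1, e2] at h3
      rw [show {ω : ℕ → Prop | ∀ k < n + 1, ∃ x ∈ W k, ω x} = {ω | ∀ k < n, ∃ x ∈ W k, ω x} ∩
        {ω | ∀ x ∈ W n, ¬ω x}ᶜ by
          ext; simp only [mem_ofPred_eq, Nat.forall_lt_succ_right]; simp, measureReal_def, h3,
        ENNReal.toReal_mul, ← measureReal_def, ← measureReal_def, probReal_compl_eq_one_sub
          (by measurability), pow_succ]
      exact mul_le_mul ih (by linarith [h1 n]) (sub_nonneg.2 measureReal_le_one)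
        (measureReal_nonneg.trans ih)
  have h3 := pow_pos q0 6
  have h4 := pow_le_one₀ (n := 6) q0.le q1
  exact (measureReal_eq_zero_iff (measure_ne_top _ _)).1 (le_antisymm (ge_of_tendsto'
    (tendsto_pow_atTop_nhds_zero_of_lt_one (r := 1 - q ^ 6) (by linarith) (by linarith)) fun n =>
      le_trans (measureReal_mono (by exact fun ω h k _ => h k)) (h2 n)) measureReal_nonneg)

lemma perc {p : unitInterval} (hp : p < 1) (v : ℕ) :
    setBernoulli univ p {ω | {u | ∃ w : G.Walk v u, ∀ x ∈ w.support, x ∈ ω}.Infinite} = 0 := by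
  refine measure_mono_null ?_ (prob (fun k => (Finset.Ioc (6 * k) (6 * k + 6)).image
    fun a => Par^[a] v) (fun k l h => (Finset.disjoint_image (smono v).injective).2
      (Finset.disjoint_left.2 fun a h1 h2 => by rw [Finset.mem_Ioc] at h1 h2; omega))
    (fun k => Finset.card_image_le.trans (by simp)) hp)
  intro ω h k
  by_contra h1
  refine h ((finite_Iic (Par^[6 * k] v)).subset ?_)
  have h2 : ∀ x y (w : G.Walk x y), (∀ z ∈ w.support, z ∈ ω) → (∃ a, Par^[a] x = Par^[6 * k] v) →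
      ∃ a, Par^[a] y = Par^[6 * k] v := fun x y w => by
    induction w with
    | nil => exact fun _ h => h
    | cons h w ih =>
      rintro h3 ⟨a, h4⟩
      refine ih (fun z hz => h3 z (by simp [hz])) ?_
      obtain ⟨b, hb, h5 | h5⟩ := adj1 h
      · rcases le_or_gt b a with h6 | h6
        · exact ⟨a - b, by rw [← h5, ← iterate_add_apply, Nat.sub_add_cancel h6, h4]⟩
        · refine absurd ⟨_, Finset.mem_image.2 ⟨b - a + 6 * k, Finset.mem_Ioc.2 (by omega), ?_⟩,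
            h3 _ (List.mem_cons_of_mem _ w.start_mem_support)⟩ h1
          rw [iterate_add_apply, ← h4, ← iterate_add_apply, Nat.sub_add_cancel h6.le, h5]
      · exact ⟨a + b, by rw [iterate_add_apply, h5, h4]⟩
  rintro u ⟨w, hw⟩
  obtain ⟨a, ha⟩ := h2 v u w hw ⟨_, rfl⟩
  exact ((smono u).monotone a.zero_le).trans_eq ha

end Pool.Agent.H.MP_295da9_pr
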